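import Pool.Agent.Lib.MP_2619d0_ag.Q9.C1

/-!
Row q9-C3: the lowest coefficients (Newton polygon)
-/

set_option autoImplicit false

namespace MP2619.Q9

universe u

open MvPolynomial Pool.Agent.Lib.MP_2619d0_ag Pool.Agent.Lib.MP_2619d0_ag.T MP2619.T

/-- A non-zero vector of polynomials is `X ^ k` times a vector which does not vanish at `0` (`k` = the least `rootMultiplicity 0`, or `Nat.find` of a non-zero coefficient vector). -/
theorem exists_low {n : ℕ} {L : Type u} [Field L] (a : Fin n → Polynomial L) (ha : a ≠ 0) :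
    ∃ (k : ℕ) (a' : Fin n → Polynomial L), (∀ j, a j = Polynomial.X ^ k * a' j) ∧
      (fun j => (a' j).eval 0) ≠ 0 := by
  classical
  have hex : ∃ k : ℕ, ∃ j, (a j).coeff k ≠ 0 := by
    by_contra hno
    push Not at hno
    apply ha
    funext j
    ext k
    simpa using hno k j
  have hk := Nat.find_spec hex
  have hmin : ∀ d, d < Nat.find hex → ∀ j, (a j).coeff d = 0 := by
    intro d hd j
    have h1 := Nat.find_min hex hd
    push Not at h1
    exact h1 j
  have hdvd : ∀ j, ∃ q : Polynomial L, a j = Polynomial.X ^ (Nat.find hex) * q := fun j =>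
    (Polynomial.X_pow_dvd_iff).2 fun d hd => hmin d hd j
  choose a' ha' using hdvd
  refine ⟨Nat.find hex, a', ha', fun h0 => ?_⟩
  obtain ⟨j, hj⟩ := hk
  apply hj
  have h1 := congrFun h0 j
  have h2 : (a' j).coeff 0 = 0 := by
    rw [Polynomial.coeff_zero_eq_eval_zero]
    exact h1
  have h3 := Polynomial.coeff_X_pow_mul (a' j) (Nat.find hex) 0
  rw [zero_add, ← ha' j] at h3
  rw [h3, h2]

/-- If `F` vanishes at the vector of polynomials `g(s)` for all `s ≠ 0`, then also for `s = 0` (`L` is infinite; `aeval g F` is a polynomial, `Polynomial.eval` commutes with `aeval`). -/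
theorem eval_zero {n : ℕ} {F : MvPolynomial (Fin n) ℂ} {L : Type u} [Field L] [Algebra ℂ L]
    (g : Fin n → Polynomial L)
    (h : ∀ s : L, s ≠ 0 → aeval (fun j => (g j).eval s) F = 0) :
    aeval (fun j => (g j).eval 0) F = 0 := by
  have hinf : Infinite L := Infinite.of_injective _ (algebraMap ℂ L).injective
  have key : ∀ s : L, (aeval g F).eval s = aeval (fun j => (g j).eval s) F := by
    intro s
    have h1 := MvPolynomial.comp_aeval_apply (R := ℂ) (f := g)
      ((Polynomial.aeval s : Polynomial L →ₐ[L] L).restrictScalars ℂ) F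
    simpa [Polynomial.coe_aeval_eq_eval] using h1
  have hz : (aeval g F) * (Polynomial.X : Polynomial L) = 0 := by
    refine Polynomial.funext fun s => ?_
    rw [Polynomial.eval_mul, Polynomial.eval_X, Polynomial.eval_zero]
    by_cases hs : s = 0
    · rw [hs, mul_zero]
    · rw [key s, h s hs, zero_mul]
  have hz' : (aeval g F : Polynomial L) = 0 := by
    rcases mul_eq_zero.1 hz with h1 | h1
    · exact h1
    · exact absurd h1 Polynomial.X_ne_zero
  rw [← key 0, hz', Polynomial.eval_zero]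

/-- The line through the value at zero. -/
private theorem C3_line {m : ℕ} (hm : 1 ≤ m) {F : MvPolynomial (Fin (m+1+1)) ℂ} (hF : VG F)
    (hNS : MP2619.N.NoSum.{u} F) {L : Type u} [Field L] [Algebra ℂ L]
    (a' b' c : Fin (m+1+1) → Polynomial L) (r l : ℕ) (hr : 0 < r)
    (hX : ∀ τ s : L, aeval (fun j => τ ^ 2 * (s ^ (r + 2 * l) * (a' j).eval s) + τ * (s ^ l * (b' j).eval s) + (c j).eval s) F = 0)
    (hc : OP F (fun j => (c j).eval 0)) (hb : (fun j => (b' j).eval 0) ≠ 0) :
    OP F (fun j => (b' j).eval 0) := by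
  refine line_par hm hF hNS _ _ hc (fun t => ?_) hb
  have h1 := eval_zero (F := F) (fun j => Polynomial.C (t ^ 2) * Polynomial.X ^ r * a' j + Polynomial.C t * b' j + c j)
    (fun σ hσ => by
      have h2 := hX (t / σ ^ l) σ
      refine Eq.trans (congrArg (fun v => aeval v F) (funext fun j => ?_)) h2
      simp only [Polynomial.eval_add, Polynomial.eval_mul, Polynomial.eval_C, Polynomial.eval_pow, Polynomial.eval_X]
      have hσl : σ ^ l ≠ 0 := pow_ne_zero _ hσ
      have e1 : (t / σ ^ l) ^ 2 * (σ ^ (r + 2 * l) * (a' j).eval σ) = t ^ 2 * σ ^ r * (a' j).eval σ := by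
        rw [pow_add, pow_mul']
        field_simp
      have e2 : t / σ ^ l * (σ ^ l * (b' j).eval σ) = t * (b' j).eval σ := by
        field_simp
      rw [e1, e2])
  refine Eq.trans (congrArg (fun v => aeval v F) (funext fun j => ?_)) h1
  simp only [Polynomial.eval_add, Polynomial.eval_mul, Polynomial.eval_C, Polynomial.eval_pow, Polynomial.eval_X]
  rw [zero_pow hr.ne']
  ring

/-- Case 1. -/
private theorem C3_conic {m : ℕ} (hm : 1 ≤ m) {F : MvPolynomial (Fin (m+1+1)) ℂ} (hF : VG F)
    (hNS : MP2619.N.NoSum.{u} F) {L : Type u} [Field L] [Algebra ℂ L]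
    (a' b' c : Fin (m+1+1) → Polynomial L) (k l : ℕ) (hkl : k ≤ 2 * l)
    (hX : ∀ τ s : L, aeval (fun j => τ ^ 2 * (s ^ k * (a' j).eval s) + τ * (s ^ l * (b' j).eval s) + (c j).eval s) F = 0)
    (hc : OP F (fun j => (c j).eval 0)) (ha : (fun j => (a' j).eval 0) ≠ 0) :
    OP F (fun j => (a' j).eval 0) := by
  refine (conic_par' hm hF hNS (fun j => (a' j).eval 0) (fun j => 0 ^ (2 * l - k) * (b' j).eval 0) _ hc fun t => ?_).1 ha
  have h1 := eval_zero (F := F) (fun j => Polynomial.C (t ^ 2) * (a' j).comp (Polynomial.X ^ 2) +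
      Polynomial.C t * Polynomial.X ^ (2 * l - k) * (b' j).comp (Polynomial.X ^ 2) + (c j).comp (Polynomial.X ^ 2))
    (fun σ hσ => by
      have h2 := hX (t / σ ^ k) (σ ^ 2)
      refine Eq.trans (congrArg (fun v => aeval v F) (funext fun j => ?_)) h2
      simp only [Polynomial.eval_add, Polynomial.eval_mul, Polynomial.eval_C, Polynomial.eval_pow, Polynomial.eval_X, Polynomial.eval_comp]
      have hσk : σ ^ k ≠ 0 := pow_ne_zero _ hσ
      have e1 : (t / σ ^ k) ^ 2 * ((σ ^ 2) ^ k * (a' j).eval (σ ^ 2)) = t ^ 2 * (a' j).eval (σ ^ 2) := by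
        rw [← pow_mul, mul_comm 2 k, pow_mul]
        field_simp
      have e3 : (σ ^ 2) ^ l = σ ^ k * σ ^ (2 * l - k) := by
        rw [← pow_mul, ← pow_add]
        congr 1
        omega
      have e2 : t / σ ^ k * ((σ ^ 2) ^ l * (b' j).eval (σ ^ 2)) = t * σ ^ (2 * l - k) * (b' j).eval (σ ^ 2) := by
        rw [e3]
        field_simp
      rw [e1, e2])
  refine Eq.trans (congrArg (fun v => aeval v F) (funext fun j => ?_)) h1
  simp only [Polynomial.eval_add, Polynomial.eval_mul, Polynomial.eval_C, Polynomial.eval_pow, Polynomial.eval_X, Polynomial.eval_comp]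
  rw [zero_pow (two_ne_zero)]
  ring

/-- Case 2, second step. -/
private theorem C3_top {m : ℕ} (hm : 1 ≤ m) {F : MvPolynomial (Fin (m+1+1)) ℂ} (hF : VG F)
    (hNS : MP2619.N.NoSum.{u} F) {L : Type u} [Field L] [Algebra ℂ L]
    (a' b' c : Fin (m+1+1) → Polynomial L) (r l : ℕ) (hr : 0 < r)
    (hX : ∀ τ s : L, aeval (fun j => τ ^ 2 * (s ^ (r + 2 * l) * (a' j).eval s) + τ * (s ^ l * (b' j).eval s) + (c j).eval s) F = 0)
    (hb : OP F (fun j => (b' j).eval 0)) (ha : (fun j => (a' j).eval 0) ≠ 0) :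
    OP F (fun j => (a' j).eval 0) := by
  -- the values at zero
  have h0 : ∀ t : L, aeval (fun j => t ^ 2 * (a' j).eval 0 + t * (b' j).eval 0) F = 0 := by
    intro t
    have h1 := eval_zero (F := F) (fun j => Polynomial.C (t ^ 2) * a' j + Polynomial.C t * b' j + Polynomial.X ^ r * c j)
      (fun σ hσ => by
        have h2 := hX (t / σ ^ (r + l)) σ
        have h3 := aeval_smul_hom hF.1 (σ ^ r) (fun j => (t / σ ^ (r + l)) ^ 2 * (σ ^ (r + 2 * l) * (a' j).eval σ) +
          t / σ ^ (r + l) * (σ ^ l * (b' j).eval σ) + (c j).eval σ)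
        rw [h2, mul_zero] at h3
        refine Eq.trans (congrArg (fun v => aeval v F) (funext fun j => ?_)) h3
        simp only [Polynomial.eval_add, Polynomial.eval_mul, Polynomial.eval_C, Polynomial.eval_pow, Polynomial.eval_X]
        have hσl : σ ^ l ≠ 0 := pow_ne_zero _ hσ
        have hσr : σ ^ r ≠ 0 := pow_ne_zero _ hσ
        have e1 : σ ^ r * ((t / σ ^ (r + l)) ^ 2 * (σ ^ (r + 2 * l) * (a' j).eval σ)) = t ^ 2 * (a' j).eval σ := by
          rw [pow_add, pow_add, pow_mul']
          field_simp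
        have e2 : σ ^ r * (t / σ ^ (r + l) * (σ ^ l * (b' j).eval σ)) = t * (b' j).eval σ := by
          rw [pow_add]
          field_simp
        rw [mul_add, mul_add, e1, e2])
    refine Eq.trans (congrArg (fun v => aeval v F) (funext fun j => ?_)) h1
    simp only [Polynomial.eval_add, Polynomial.eval_mul, Polynomial.eval_C, Polynomial.eval_pow, Polynomial.eval_X]
    rw [zero_pow hr.ne']
    ring
  have h4 : ∀ t : L, t ≠ 0 → aeval (fun j => t * (a' j).eval 0 + (b' j).eval 0) F = 0 := by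
    intro t ht
    have h5 := h0 t
    have h6 := aeval_smul_hom hF.1 t (fun j => t * (a' j).eval 0 + (b' j).eval 0)
    have h7 : aeval (fun j => t * (t * (a' j).eval 0 + (b' j).eval 0)) F = 0 := by
      refine Eq.trans (congrArg (fun v => aeval v F) (funext fun j => ?_)) h5
      ring
    rw [h7] at h6
    rcases mul_eq_zero.1 h6.symm with h8 | h8
    · exact absurd h8 (pow_ne_zero _ ht)
    · exact h8
  refine line_par hm hF hNS _ _ hb (fun t => ?_) ha
  by_cases ht : t = 0
  · subst ht
    have h9 := eval_zero (F := F) (fun j => Polynomial.X * Polynomial.C ((a' j).eval 0) + Polynomial.C ((b' j).eval 0))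
      (fun σ hσ => by
        refine Eq.trans (congrArg (fun v => aeval v F) (funext fun j => ?_)) (h4 σ hσ)
        simp only [Polynomial.eval_add, Polynomial.eval_mul, Polynomial.eval_C, Polynomial.eval_X])
    refine Eq.trans (congrArg (fun v => aeval v F) (funext fun j => ?_)) h9
    simp only [Polynomial.eval_add, Polynomial.eval_mul, Polynomial.eval_C, Polynomial.eval_X]
  · exact h4 t ht

/-- Let `a = X^k a'`, `b = X^l b'` with `a'(0), b'(0) ≠ 0` (`exists_low`), `x = c(0)`. Use `aeval (μ • y) F = μ ^ 3 * aeval y F` (`aeval_smul_hom hF.1`).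
Case 1: `b = 0` or `k ≤ 2 l`. In `hX` put `s = σ ^ 2`, `τ = t / σ ^ k`: for `σ ≠ 0` the vector is `t ^ 2 a'(σ ^ 2) + t σ ^ (2 l - k) b'(σ ^ 2) + c(σ ^ 2)`; by `eval_zero` also at `σ = 0`: the conic
`t ^ 2 a'(0) + t β + x`; `conic_par'`. Case 2: `b ≠ 0`, `2 l < k`. `s = σ`, `τ = t / σ ^ l`: `F` vanishes at `t b'(0) + x`, `line_par`: `b'(0)` is odd. `τ = t / σ ^ (k - l)`, the vector times
`σ ^ (k - 2 l)`: `t ^ 2 a'(σ) + t b'(σ) + σ ^ (k - 2 l) c(σ)`; at `σ = 0` and divided by `t ≠ 0`: `F` vanishes at `t a'(0) + b'(0)` (`t = 0` by `eval_zero`): `line_par`.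
Second part (`a = 0`): `s = σ`, `τ = t / σ ^ l`, `line_par`. -/
theorem lead_odd {m : ℕ} (hm : 1 ≤ m) {F : MvPolynomial (Fin (m+1+1)) ℂ} (hF : VG F)
    (hNS : MP2619.N.NoSum.{u} F) {L : Type u} [Field L] [Algebra ℂ L]
    (a b c : Fin (m+1+1) → Polynomial L)
    (hX : ∀ τ s : L, aeval (fun j => τ ^ 2 * (a j).eval s + τ * (b j).eval s + (c j).eval s) F = 0)
    (hc : OP F (fun j => (c j).eval 0)) :
    (a ≠ 0 → ∃ (k : ℕ) (a' : Fin (m+1+1) → Polynomial L), (∀ j, a j = Polynomial.X ^ k * a' j) ∧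
      OP F (fun j => (a' j).eval 0)) ∧
    (a = 0 → b ≠ 0 → ∃ (k : ℕ) (b' : Fin (m+1+1) → Polynomial L),
      (∀ j, b j = Polynomial.X ^ k * b' j) ∧ OP F (fun j => (b' j).eval 0)) := by
  constructor
  · intro ha
    obtain ⟨k, a', ha', ha0⟩ := exists_low a ha
    refine ⟨k, a', ha', ?_⟩
    by_cases hb : b = 0
    · refine C3_conic hm hF hNS a' (fun _ => 0) c k k (by omega) (fun τ s => ?_) hc ha0
      refine Eq.trans (congrArg (fun v => aeval v F) (funext fun j => ?_)) (hX τ s)
      rw [ha' j, hb]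
      simp only [Polynomial.eval_mul, Polynomial.eval_pow, Polynomial.eval_X, Pi.zero_apply, Polynomial.eval_zero]
      ring
    · obtain ⟨l, b', hb', hb0⟩ := exists_low b hb
      by_cases hkl : k ≤ 2 * l
      · refine C3_conic hm hF hNS a' b' c k l hkl (fun τ s => ?_) hc ha0
        refine Eq.trans (congrArg (fun v => aeval v F) (funext fun j => ?_)) (hX τ s)
        rw [ha' j, hb' j]
        simp only [Polynomial.eval_mul, Polynomial.eval_pow, Polynomial.eval_X]
      · push Not at hkl
        obtain ⟨r, rfl⟩ : ∃ r, k = r + 2 * l := ⟨k - 2 * l, by omega⟩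
        have hr : 0 < r := by omega
        have hX' : ∀ τ s : L, aeval (fun j => τ ^ 2 * (s ^ (r + 2 * l) * (a' j).eval s) +
            τ * (s ^ l * (b' j).eval s) + (c j).eval s) F = 0 := by
          intro τ s
          refine Eq.trans (congrArg (fun v => aeval v F) (funext fun j => ?_)) (hX τ s)
          rw [ha' j, hb' j]
          simp only [Polynomial.eval_mul, Polynomial.eval_pow, Polynomial.eval_X]
        exact C3_top hm hF hNS a' b' c r l hr hX' (C3_line hm hF hNS a' b' c r l hr hX' hc hb0) ha0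
  · intro ha hb
    obtain ⟨l, b', hb', hb0⟩ := exists_low b hb
    refine ⟨l, b', hb', ?_⟩
    refine C3_line hm hF hNS (fun _ => 0) b' c 1 l one_pos (fun τ s => ?_) hc hb0
    refine Eq.trans (congrArg (fun v => aeval v F) (funext fun j => ?_)) (hX τ s)
    rw [ha, hb' j]
    simp only [Polynomial.eval_mul, Polynomial.eval_pow, Polynomial.eval_X, Pi.zero_apply, Polynomial.eval_zero]
    ring

end MP2619.Q9
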