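import Mathlib

/-!
Row q9-C4: forms along a line; double points of quartic forms
-/

set_option autoImplicit false

namespace MP2619.Q9

universe u

open MvPolynomial

/-- the polynomial `G (p + s c)` in `s` -/
noncomputable def lp {N : ℕ} {L : Type u} [Field L] [Algebra ℂ L] (p c : Fin N → L)
    (G : MvPolynomial (Fin N) ℂ) : Polynomial L :=
  aeval (fun i => Polynomial.C (p i) + Polynomial.C (c i) * Polynomial.X) G

private theorem C4_aeval {N : ℕ} {S : Type u} [CommRing S] [Algebra ℂ S] (a : Fin N → S)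
    (G : MvPolynomial (Fin N) ℂ) :
    aeval a G = ∑ d ∈ G.support, algebraMap ℂ S (G.coeff d) * ∏ i, a i ^ d i := by
  rw [aeval_def, eval₂_eq']

private theorem C4_deg {N e : ℕ} {G : MvPolynomial (Fin N) ℂ} (hG : G.IsHomogeneous e)
    {d : Fin N →₀ ℕ} (hd : d ∈ G.support) : ∑ i, d i = e := by
  have h1 := hG (mem_support_iff.1 hd)
  have h2 : (Finsupp.weight (1 : Fin N → ℕ)) d = d.degree := by
    rw [Finsupp.degree_eq_weight_one]
    rfl
  rw [← h1, h2, Finsupp.degree_eq_sum]

private theorem C4_scale {N e : ℕ} {S : Type u} [CommRing S] [Algebra ℂ S] (a : Fin N → S) (s : S)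
    {G : MvPolynomial (Fin N) ℂ} (hG : G.IsHomogeneous e) :
    aeval (fun i => s * a i) G = s ^ e * aeval a G := by
  rw [C4_aeval, C4_aeval, Finset.mul_sum]
  refine Finset.sum_congr rfl (fun d hd => ?_)
  have h1 : ∏ i, (s * a i) ^ d i = s ^ e * ∏ i, a i ^ d i := by
    rw [← C4_deg hG hd, ← Finset.prod_pow_eq_pow_sum, ← Finset.prod_mul_distrib]
    exact Finset.prod_congr rfl (fun i _ => mul_pow _ _ _)
  rw [h1]
  ring

private theorem C4_prod {ι : Type*} {L : Type u} [Field L] (t : Finset ι) (q : ι → Polynomial L) (a : ι → ℕ)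
    (h : ∀ i ∈ t, (q i).natDegree ≤ a i) :
    (∏ i ∈ t, q i).natDegree ≤ ∑ i ∈ t, a i ∧
      (∏ i ∈ t, q i).coeff (∑ i ∈ t, a i) = ∏ i ∈ t, (q i).coeff (a i) := by
  classical
  induction t using Finset.induction_on with
  | empty => simp
  | insert i t hi ih =>
    have h1 := ih (fun j hj => h j (Finset.mem_insert_of_mem hj))
    have h2 := h i (Finset.mem_insert_self i t)
    rw [Finset.prod_insert hi, Finset.sum_insert hi, Finset.prod_insert hi]
    refine ⟨Polynomial.natDegree_mul_le_of_le h2 h1.1, ?_⟩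
    rw [Polynomial.coeff_mul_add_eq_of_natDegree_le h2 h1.1, h1.2]

private theorem C4_pow {L : Type u} [Field L] (x y : L) (d : ℕ) :
    ((Polynomial.C x + Polynomial.C y * Polynomial.X) ^ d).natDegree ≤ d ∧
      ((Polynomial.C x + Polynomial.C y * Polynomial.X) ^ d).coeff d = y ^ d := by
  have h1 : (Polynomial.C x + Polynomial.C y * Polynomial.X).natDegree ≤ 1 := by
    rw [add_comm]
    exact Polynomial.natDegree_linear_le
  have h2 := Polynomial.natDegree_pow_le_of_le d h1
  have h3 := Polynomial.coeff_pow_of_natDegree_le (m := d) h1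
  rw [mul_one] at h2 h3
  refine ⟨h2, ?_⟩
  rw [h3]
  congr 1
  simp

theorem lp_eval {N : ℕ} {L : Type u} [Field L] [Algebra ℂ L] (p c : Fin N → L)
    (G : MvPolynomial (Fin N) ℂ) (s : L) :
    (lp p c G).eval s = aeval (fun i => p i + s * c i) G := by
  unfold lp
  rw [C4_aeval, C4_aeval, Polynomial.eval_finsetSum]
  refine Finset.sum_congr rfl (fun d _ => ?_)
  rw [Polynomial.eval_mul, Polynomial.eval_prod]
  congr 1
  · rw [IsScalarTower.algebraMap_apply ℂ L (Polynomial L), Polynomial.algebraMap_eq, Polynomial.eval_C]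
  · refine Finset.prod_congr rfl (fun i _ => ?_)
    rw [Polynomial.eval_pow, Polynomial.eval_add, Polynomial.eval_mul, Polynomial.eval_C, Polynomial.eval_C, Polynomial.eval_X, mul_comm s]

theorem lp_deg {N e : ℕ} {L : Type u} [Field L] [Algebra ℂ L] (p c : Fin N → L)
    (G : MvPolynomial (Fin N) ℂ) (hG : G.IsHomogeneous e) : (lp p c G).natDegree ≤ e := by
  unfold lp
  rw [C4_aeval]
  refine Polynomial.natDegree_sum_le_of_forall_le _ _ (fun d hd => ?_)
  have h1 := (C4_prod Finset.univ (fun i => (Polynomial.C (p i) + Polynomial.C (c i) * Polynomial.X) ^ d i) (fun i => d i)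
    (fun i _ => (C4_pow (p i) (c i) (d i)).1)).1
  rw [C4_deg hG hd] at h1
  rw [IsScalarTower.algebraMap_apply ℂ L (Polynomial L), Polynomial.algebraMap_eq]
  exact (Polynomial.natDegree_C_mul_le _ _).trans h1

/-- monomial by monomial: `(C p + C c X) ^ d` has top coefficient `c ^ d`; `Polynomial.coeff_prod_of_natDegree_le` or the like -/
theorem lp_top {N e : ℕ} {L : Type u} [Field L] [Algebra ℂ L] (p c : Fin N → L)
    (G : MvPolynomial (Fin N) ℂ) (hG : G.IsHomogeneous e) :
    (lp p c G).coeff e = aeval c G := by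
  unfold lp
  rw [C4_aeval, C4_aeval, Polynomial.finsetSum_coeff]
  refine Finset.sum_congr rfl (fun d hd => ?_)
  have h1 := (C4_prod Finset.univ (fun i => (Polynomial.C (p i) + Polynomial.C (c i) * Polynomial.X) ^ d i) (fun i => d i)
    (fun i _ => (C4_pow (p i) (c i) (d i)).1)).2
  rw [C4_deg hG hd] at h1
  rw [IsScalarTower.algebraMap_apply ℂ L (Polynomial L), Polynomial.algebraMap_eq, Polynomial.coeff_C_mul, h1]
  congr 1
  exact Finset.prod_congr rfl (fun i _ => (C4_pow (p i) (c i) (d i)).2)

private theorem C4_comp {N : ℕ} {L : Type u} [Field L] [Algebra ℂ L] (v : Fin N → L)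
    (τ : MvPolynomial (Fin N) ℂ) (k : ℕ) :
    (aeval (fun i => (Polynomial.X : Polynomial L) * Polynomial.C (v i)) τ).coeff k = aeval v (homogeneousComponent k τ) := by
  have h0 : ∀ i : ℕ, aeval (fun i => (Polynomial.X : Polynomial L) * Polynomial.C (v i)) (homogeneousComponent i τ) =
      Polynomial.C (aeval v (homogeneousComponent i τ)) * Polynomial.X ^ i := by
    intro i
    rw [C4_scale (fun i => Polynomial.C (v i)) Polynomial.X (homogeneousComponent_isHomogeneous i τ), mul_comm]
    congr 1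
    rw [C4_aeval, C4_aeval, map_sum]
    refine Finset.sum_congr rfl (fun d _ => ?_)
    rw [map_mul, map_prod]
    congr 1
    exact Finset.prod_congr rfl (fun i _ => (map_pow _ _ _).symm)
  have h1 : aeval (fun i => (Polynomial.X : Polynomial L) * Polynomial.C (v i)) τ =
      ∑ i ∈ Finset.range (τ.totalDegree + 1), Polynomial.C (aeval v (homogeneousComponent i τ)) * Polynomial.X ^ i := by
    conv_lhs => rw [← sum_homogeneousComponent τ]
    rw [map_sum]
    exact Finset.sum_congr rfl (fun i _ => h0 i)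
  rw [h1, Polynomial.finsetSum_coeff]
  simp only [Polynomial.coeff_C_mul_X_pow]
  rw [Finset.sum_ite_eq]
  split_ifs with h2
  · rfl
  · rw [homogeneousComponent_eq_zero k τ (by rw [Finset.mem_range] at h2; omega), map_zero]

/-- `τ j = aeval (C (P0 i) + X i) (f j)`, `A j = homogeneousComponent 2 (τ j)`, `B j = homogeneousComponent 3 (τ j)`; the components of degree `0` and `1` vanish, those of degree `> 4` too, the one of degree `4` is `f j`
(`lp_top` over a big field, or directly). For `t ≠ 0`: `f j (v + t P0) = t ^ 4 * f j (P0 + v / t) = t ^ 4 * τ j (v / t) = ∑ k, t ^ (4 - k) * (τ j)_k (v)`. For `t = 0` clear, given that the component of degree 4 is `f j`. -/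
theorem double_point {n N : ℕ} (f : Fin n → MvPolynomial (Fin N) ℂ)
    (hf : ∀ j, (f j).IsHomogeneous 4) (P0 : Fin N → ℂ)
    (h : ∀ (j : Fin n) (d : Fin N →₀ ℕ), d.degree ≤ 1 →
      coeff d (aeval (fun i => C (P0 i) + X i : Fin N → MvPolynomial (Fin N) ℂ) (f j)) = 0) :
    ∃ A B : Fin n → MvPolynomial (Fin N) ℂ, (∀ j, (A j).IsHomogeneous 2) ∧
      (∀ j, (B j).IsHomogeneous 3) ∧
      ∀ (L : Type u) [Field L] [Algebra ℂ L] (v : Fin N → L) (t : L) (j : Fin n),
        aeval (fun i => v i + t * algebraMap ℂ L (P0 i)) (f j) =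
          t ^ 2 * aeval v (A j) + t * aeval v (B j) + aeval v (f j) := by
  refine ⟨fun j => homogeneousComponent 2 (aeval (fun i => C (P0 i) + X i : Fin N → MvPolynomial (Fin N) ℂ) (f j)),
    fun j => homogeneousComponent 3 (aeval (fun i => C (P0 i) + X i : Fin N → MvPolynomial (Fin N) ℂ) (f j)),
    fun j => homogeneousComponent_isHomogeneous 2 _, fun j => homogeneousComponent_isHomogeneous 3 _, ?_⟩
  intro L _ _ v t j
  set τ : MvPolynomial (Fin N) ℂ := aeval (fun i => C (P0 i) + X i : Fin N → MvPolynomial (Fin N) ℂ) (f j) with hτ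
  have h0 : homogeneousComponent 0 τ = 0 := by
    refine homogeneousComponent_eq_zero' 0 τ (fun d hd h2 => ?_)
    exact mem_support_iff.1 hd (h j d (by omega))
  have h1 : homogeneousComponent 1 τ = 0 := by
    refine homogeneousComponent_eq_zero' 1 τ (fun d hd h2 => ?_)
    exact mem_support_iff.1 hd (h j d (by omega))
  have hq : lp (fun i => algebraMap ℂ L (P0 i)) v (f j) = aeval (fun i => (Polynomial.X : Polynomial L) * Polynomial.C (v i)) τ := by
    rw [hτ]
    have h3 := congrArg (fun φ => φ (f j)) (comp_aeval (fun i => C (P0 i) + X i : Fin N → MvPolynomial (Fin N) ℂ)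
      (aeval (fun i => (Polynomial.X : Polynomial L) * Polynomial.C (v i)) : MvPolynomial (Fin N) ℂ →ₐ[ℂ] Polynomial L))
    simp only [AlgHom.comp_apply] at h3
    rw [h3]
    unfold lp
    congr 2
    funext i
    rw [map_add, aeval_X, ← algebraMap_eq, AlgHom.commutes, IsScalarTower.algebraMap_apply ℂ L (Polynomial L), Polynomial.algebraMap_eq, mul_comm]
  have hc : ∀ k, (lp (fun i => algebraMap ℂ L (P0 i)) v (f j)).coeff k = aeval v (homogeneousComponent k τ) := by
    intro k
    rw [hq, C4_comp]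
  have hc4 := lp_top (fun i => algebraMap ℂ L (P0 i)) v (f j) (hf j)
  by_cases ht : t = 0
  · subst ht
    simp
  · have h5 : aeval (fun i => v i + t * algebraMap ℂ L (P0 i)) (f j) =
        t ^ 4 * (lp (fun i => algebraMap ℂ L (P0 i)) v (f j)).eval t⁻¹ := by
      rw [lp_eval, ← C4_scale _ t (hf j)]
      congr 2
      funext i
      field_simp
      ring
    rw [h5, Polynomial.eval_eq_sum_range' (Nat.lt_succ_of_le (lp_deg (fun i => algebraMap ℂ L (P0 i)) v (f j) (hf j)))]
    simp only [Finset.sum_range_succ, Finset.sum_range_zero]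
    rw [hc4, hc 0, hc 1, hc 2, hc 3, h0, h1]
    simp only [map_zero]
    field_simp
    ring

end MP2619.Q9
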