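import Mathlib

/-!
Row q9-C5: forms which are invariant under a translation
-/

set_option autoImplicit false

namespace MP2619.Q9

universe u

open MvPolynomial

/-- `i0` with `P0 i0 ≠ 0`; `f' j = aeval (Fin.insertNth i0 0 X) (f j)`; for `p : Fin (N + 1) → L` let `t = - p i0 / P0 i0` and `p' = ` the coordinates `≠ i0` of `p + t P0` (`Fin.removeNth i0`), so
`aeval p' (f' j) = aeval (p + t P0) (f j) = aeval p (f j)` by `h`. -/
theorem drop_var {n N e : ℕ} {F : MvPolynomial (Fin n) ℂ}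
    (f : Fin n → MvPolynomial (Fin (N + 1)) ℂ) (hf : ∀ j, (f j).IsHomogeneous e)
    (h0 : aeval f F = 0) (P0 : Fin (N + 1) → ℂ) (hP : P0 ≠ 0)
    (h : ∀ (L : Type u) [Field L] [Algebra ℂ L] (v : Fin (N + 1) → L) (t : L) (j : Fin n),
      aeval (fun i => v i + t * algebraMap ℂ L (P0 i)) (f j) = aeval v (f j)) :
    ∃ f' : Fin n → MvPolynomial (Fin N) ℂ, (∀ j, (f' j).IsHomogeneous e) ∧ aeval f' F = 0 ∧
      ∀ (L : Type u) [Field L] [Algebra ℂ L] (p : Fin (N + 1) → L), ∃ p' : Fin N → L,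
        ∀ j, aeval p' (f' j) = aeval p (f j) := by
  obtain ⟨i0, hi0⟩ : ∃ i0, P0 i0 ≠ 0 := by
    by_contra hc
    push Not at hc
    exact hP (funext hc)
  let g : Fin (N + 1) → MvPolynomial (Fin N) ℂ :=
    Fin.insertNth (α := fun _ => MvPolynomial (Fin N) ℂ) i0 0 X
  have hg0 : g i0 = 0 := by
    simp [g]
  have hg1 : ∀ i, g (i0.succAbove i) = X i := by
    intro i
    simp [g]
  have hgh : ∀ i, (g i).IsHomogeneous 1 := by
    intro i
    rcases Fin.eq_self_or_eq_succAbove i0 i with hi | ⟨k, hk⟩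
    · rw [hi, hg0]
      exact isHomogeneous_zero _ _ _
    · rw [hk, hg1]
      exact isHomogeneous_X _ _
  refine ⟨fun j => aeval g (f j), ?_, ?_, ?_⟩
  · intro j
    have := (hf j).aeval g hgh
    rwa [one_mul] at this
  · have h1 : aeval (fun j => aeval g (f j)) F = aeval g (aeval f F) :=
      (comp_aeval_apply f (aeval g) F).symm
    rw [h1, h0, map_zero]
  · intro L _ _ p
    have hne : algebraMap ℂ L (P0 i0) ≠ 0 := by
      rw [Ne, map_eq_zero]
      exact hi0
    refine ⟨fun i => p (i0.succAbove i) +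
      (-p i0 / algebraMap ℂ L (P0 i0)) * algebraMap ℂ L (P0 (i0.succAbove i)), ?_⟩
    intro j
    rw [comp_aeval_apply, ← h L p (-p i0 / algebraMap ℂ L (P0 i0)) j]
    congr 2
    funext i
    rcases Fin.eq_self_or_eq_succAbove i0 i with hi | ⟨k, hk⟩
    · rw [hi, hg0, map_zero]
      field_simp
      ring
    · rw [hk, hg1, aeval_X]

end MP2619.Q9
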