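import Pool.Agent.Lib.MP_2619d0_ag.Q9.C2
import Pool.Agent.Lib.MP_2619d0_ag.Q9.C3
import Pool.Agent.Lib.MP_2619d0_ag.Q9.C4
import Pool.Agent.Lib.MP_2619d0_ag.Q9.C5
import Pool.Agent.Lib.MP_2619d0_ag.Q7.B0
import Pool.Agent.Lib.MP_2619d0_ag.Q8.Final

/-!
# Theorem Q9: quartic forms at any point
-/

set_option autoImplicit false

namespace MP2619.Q9

universe u

open MvPolynomial Pool.Agent.Lib.MP_2619d0_ag Pool.Agent.Lib.MP_2619d0_ag.T MP2619.T MP2619.Q6

/-- a polynomial which vanishes at all points over all fields is zero -/
theorem zero_of_values {N : ℕ} (G : MvPolynomial (Fin N) ℂ)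
    (h : ∀ (L : Type u) [Field L] [Algebra ℂ L] (v : Fin N → L), aeval v G = 0) : G = 0 := by
  apply MvPolynomial.funext
  intro c
  rw [map_zero]
  have h1 := h (ULift.{u} ℂ) (fun i => algebraMap ℂ (ULift.{u} ℂ) (c i))
  have h2 := MvPolynomial.aeval_algebraMap_apply (ULift.{u} ℂ) c G
  have h3 : algebraMap ℂ (ULift.{u} ℂ) (aeval c G) = 0 := h2.symm.trans h1
  have h4 := (map_eq_zero_iff _ (algebraMap ℂ (ULift.{u} ℂ)).injective).1 h3
  rwa [MvPolynomial.aeval_eq_eval] at h4

/-- a non-zero vector of forms has a non-zero value over `ℂ` -/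
theorem exists_value {n N : ℕ} (A : Fin n → MvPolynomial (Fin N) ℂ) (h : ∃ j, A j ≠ 0) :
    ∃ c : Fin N → ℂ, ∃ j, aeval c (A j) ≠ 0 := by
  obtain ⟨j, hj⟩ := h
  by_contra hcon
  push Not at hcon
  apply hj
  apply MvPolynomial.funext
  intro c
  have h1 := hcon c j
  rw [MvPolynomial.aeval_eq_eval] at h1
  rw [h1, map_zero]

theorem smul_van {m : ℕ} {F : MvPolynomial (Fin (m+1+1)) ℂ} (hF : VG F) {L : Type u} [Field L]
    [Algebra ℂ L] (c : L) (hc : c ≠ 0) (y : Fin (m+1+1) → L)
    (h : aeval (fun i => c * y i) F = 0) : aeval y F = 0 := by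
  have h1 := aeval_smul_hom hF.1 c y
  rw [h] at h1
  exact (mul_eq_zero.1 h1.symm).resolve_left (pow_ne_zero _ hc)

/-- dividing an arc on `X` by a power of the parameter -/
theorem arc_div {m : ℕ} {F : MvPolynomial (Fin (m+1+1)) ℂ} (hF : VG F) {L : Type u} [Field L]
    [Algebra ℂ L] (a a' : Fin (m+1+1) → Polynomial L) (k : ℕ)
    (hk : ∀ j, a j = Polynomial.X ^ k * a' j)
    (hX : ∀ s : L, aeval (fun j => (a j).eval s) F = 0) (s : L) :
    aeval (fun j => (a' j).eval s) F = 0 := by
  have h1 : ∀ s : L, s ≠ 0 → aeval (fun j => (a' j).eval s) F = 0 := by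
    intro s hs
    have h2 := hX s
    have h3 : (fun j => (a j).eval s) = fun j => s ^ k * (a' j).eval s := by
      funext j
      rw [hk j, Polynomial.eval_mul, Polynomial.eval_pow, Polynomial.eval_X]
    rw [h3] at h2
    exact smul_van hF _ (pow_ne_zero _ hs) _ h2
  by_cases hs : s = 0
  · rw [hs]
    exact eval_zero a' h1
  · exact h1 s hs

/-- An arc with odd lowest coefficient and degree at most two after division has an odd top coefficient. -/
theorem arc_top {m : ℕ} (hm : 1 ≤ m) {F : MvPolynomial (Fin (m+1+1)) ℂ} (hF : VG F)
    (hNS : MP2619.N.NoSum.{u} F) {L : Type u} [Field L] [Algebra ℂ L]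
    (a a' : Fin (m+1+1) → Polynomial L) (k e : ℕ) (hk : ∀ j, a j = Polynomial.X ^ k * a' j)
    (hX : ∀ s : L, aeval (fun j => (a j).eval s) F = 0) (hdeg : ∀ j, (a j).natDegree ≤ e)
    (hne : (fun j => (a j).coeff e) ≠ 0) (hke : e ≤ k + 2) (ho : OP F (fun j => (a' j).eval 0)) :
    OP F (fun j => (a j).coeff e) := by
  have hk1 : k ≤ e := by
    by_contra hlt
    apply hne
    funext j
    rw [hk j, Polynomial.coeff_X_pow_mul', if_neg (by omega)]
    rfl
  have h1 : ∀ j, (a' j).natDegree ≤ e - k := by
    intro j
    by_cases h0 : a' j = 0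
    · rw [h0, Polynomial.natDegree_zero]
      omega
    · have h2 := hdeg j
      rw [hk j, Polynomial.natDegree_mul (pow_ne_zero _ Polynomial.X_ne_zero) h0,
        Polynomial.natDegree_X_pow] at h2
      omega
  have h2 : (fun j => (a j).coeff e) = fun j => (a' j).coeff (e - k) := by
    funext j
    rw [hk j, Polynomial.coeff_X_pow_mul', if_pos hk1]
  rw [h2] at hne ⊢
  exact top_odd hm hF hNS (e - k) (by omega) a' h1 (arc_div hF a a' k hk hX) ho hne

theorem ev_four {q : ℕ} {F : MvPolynomial (Fin (2 * q + 2 + 4)) ℂ} (hF : VG F) :
    ∀ (N : ℕ) (f : Fin (2 * q + 2 + 4) → MvPolynomial (Fin N) ℂ), (∀ j, (f j).IsHomogeneous 4) →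
      aeval f F = 0 → ∀ (L : Type u) [Field L] [Algebra ℂ L] (p : Fin N → L),
        ¬ OP F (fun j => aeval p (f j)) := by
  have hNS : MP2619.N.NoSum.{u} F := MP2619.N.noSum (n := 2 * q + 2 + 4) (by omega) hF
  have hm1 : 1 ≤ 2 * q + 2 + 2 := by omega
  intro N
  induction N with
  | zero =>
    intro f hf h0 L _ _ p hp
    refine not_OP_const (m := 2 * q + 2 + 2) hF (L := L) (fun j => coeff 0 (f j)) ?_
    have h1 : (fun j => algebraMap ℂ L (coeff 0 (f j))) = fun j => aeval p (f j) := by
      funext j
      conv_rhs => rw [MvPolynomial.eq_C_of_isEmpty (f j)]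
      rw [aeval_C]
    rw [h1]
    exact hp
  | succ N ih =>
    intro f hf h0 L _ _ p hp
    classical
    by_cases hm : ∀ P0 : Fin (N + 1) → ℂ, P0 ≠ 0 → ∃ (j : Fin (2 * q + 2 + 4))
        (d : Fin (N + 1) →₀ ℕ), d.degree ≤ 1 ∧ coeff d (aeval
          (fun i => C (P0 i) + X i : Fin (N + 1) → MvPolynomial (Fin (N + 1)) ℂ) (f j)) ≠ 0
    · -- simple base points
      obtain ⟨K, hK⟩ := exists_Bk (m := N) (N := N + 1) (s := 1) rfl (fun _ => 0)
        (fun i => ⟨0, Subsingleton.elim _ _⟩)
      refine q8_simple K hF f (e := fun _ => 4) (fun j d hd i => ?_) h0 (fun P0 hP0 => ?_) p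
        (fun i => ?_) hp.1 hp.2
      · have h1 := hf j hd
        rw [Finsupp.weight_apply, Finsupp.sum_fintype _ _ (fun q => by simp)] at h1
        rw [← h1]
        refine Finset.sum_congr ?_ fun l _ => by simp
        ext l
        simp [Subsingleton.elim (K.bl l) i]
      · refine hm P0 ?_
        rintro rfl
        obtain ⟨j, -, hj⟩ := hP0 0
        exact hj rfl
      · by_contra hcon
        push Not at hcon
        have hp0 : p = 0 := funext fun l => hcon l (Subsingleton.elim _ _)
        apply hp.ne_zero (m := 2 * q + 2 + 2) hF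
        funext j
        rw [hp0]
        have h1 := (hf j).coeff_eq_zero (d := 0) (by simp)
        rw [aeval_zero, constantCoeff_eq, h1, map_zero]
        rfl
    · push Not at hm
      obtain ⟨P0, hP0, hz⟩ := hm
      obtain ⟨A, B, hA, hB, hAB⟩ := double_point.{u} f hf P0 hz
      have hid : ∀ (L : Type u) [Field L] [Algebra ℂ L] (v : Fin (N + 1) → L) (t : L),
          aeval (fun j => t ^ 2 * aeval v (A j) + t * aeval v (B j) + aeval v (f j)) F = 0 := by
        intro L _ _ v t
        have h1 : (fun j => t ^ 2 * aeval v (A j) + t * aeval v (B j) + aeval v (f j)) =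
            fun j => aeval (fun i => v i + t * algebraMap ℂ L (P0 i)) (f j) :=
          funext fun j => (hAB L v t j).symm
        rw [h1, ← MvPolynomial.comp_aeval_apply, h0, map_zero]
      have hFA : ∀ (L : Type u) [Field L] [Algebra ℂ L] (v : Fin (N + 1) → L),
          aeval (fun j => aeval v (A j)) F = 0 := by
        intro L _ _ v
        have h1 := eval_zero (F := F) (L := L) (fun j => Polynomial.C (aeval v (A j)) +
          Polynomial.C (aeval v (B j)) * Polynomial.X +
            Polynomial.C (aeval v (f j)) * Polynomial.X ^ 2) (fun s hs => by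
          have h2 := hid L v s⁻¹
          have h3 : (fun j => (s⁻¹) ^ 2 * aeval v (A j) + s⁻¹ * aeval v (B j) + aeval v (f j)) =
              fun j => (s⁻¹) ^ 2 * (Polynomial.C (aeval v (A j)) +
                Polynomial.C (aeval v (B j)) * Polynomial.X +
                Polynomial.C (aeval v (f j)) * Polynomial.X ^ 2).eval s := by
            funext j
            simp only [Polynomial.eval_add, Polynomial.eval_mul,
              Polynomial.eval_C, Polynomial.eval_X, Polynomial.eval_pow]
            field_simp
          rw [h3] at h2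
          exact smul_van (m := 2 * q + 2 + 2) hF _ (pow_ne_zero _ (inv_ne_zero hs)) _ h2)
        simp only [Polynomial.eval_add, Polynomial.eval_mul, Polynomial.eval_C, Polynomial.eval_X,
          Polynomial.eval_pow, mul_zero, add_zero, zero_pow (two_ne_zero)] at h1
        exact h1
      by_cases hA0 : ∃ j, A j ≠ 0
      · obtain ⟨c, j0, hc⟩ := exists_value A hA0
        obtain ⟨cL, hcL⟩ : ∃ cL : Fin (N + 1) → L, cL = fun i => algebraMap ℂ L (c i) := ⟨_, rfl⟩
        have htop : (fun j => (lp p cL (A j)).coeff 2) =
            fun j => algebraMap ℂ L (aeval c (A j)) := by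
          funext j
          rw [lp_top p cL (A j) (hA j), hcL]
          exact MvPolynomial.aeval_algebraMap_apply L c (A j)
        have hne : (fun j => (lp p cL (A j)).coeff 2) ≠ 0 := by
          rw [htop]
          intro h
          have h1 := congrFun h j0
          exact hc ((map_eq_zero _).1 h1)
        have ha : (fun j => lp p cL (A j)) ≠ 0 := by
          intro h
          apply hne
          funext j
          rw [congrFun h j]
          simp
        obtain ⟨k, a', hk, ha'⟩ := (lead_odd (m := 2 * q + 2 + 2) hm1 hF hNS
          (fun j => lp p cL (A j)) (fun j => lp p cL (B j)) (fun j => lp p cL (f j))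
          (fun τ s => by
            simp only [lp_eval]
            exact hid L _ τ) (by
            simp only [lp_eval, zero_mul, add_zero]
            exact hp)).1 ha
        have h9 := arc_top (m := 2 * q + 2 + 2) hm1 hF hNS (fun j => lp p cL (A j)) a' k 2 hk
          (fun s => by
            simp only [lp_eval]
            exact hFA L _) (fun j => lp_deg p cL (A j) (hA j)) hne (by omega) ha'
        rw [htop] at h9
        exact not_OP_const (m := 2 * q + 2 + 2) hF _ h9
      · push Not at hA0
        have hid2 : ∀ (L : Type u) [Field L] [Algebra ℂ L] (v : Fin (N + 1) → L) (t : L),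
            aeval (fun j => t * aeval v (B j) + aeval v (f j)) F = 0 := by
          intro L _ _ v t
          have h1 := hid L v t
          simpa [hA0] using h1
        have hFB : ∀ (L : Type u) [Field L] [Algebra ℂ L] (v : Fin (N + 1) → L),
            aeval (fun j => aeval v (B j)) F = 0 := by
          intro L _ _ v
          have h1 := eval_zero (F := F) (L := L) (fun j => Polynomial.C (aeval v (B j)) +
            Polynomial.C (aeval v (f j)) * Polynomial.X) (fun s hs => by
            have h2 := hid2 L v s⁻¹
            have h3 : (fun j => s⁻¹ * aeval v (B j) + aeval v (f j)) =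
                fun j => s⁻¹ * (Polynomial.C (aeval v (B j)) +
                  Polynomial.C (aeval v (f j)) * Polynomial.X).eval s := by
              funext j
              simp only [Polynomial.eval_add, Polynomial.eval_mul,
                Polynomial.eval_C, Polynomial.eval_X]
              field_simp
            rw [h3] at h2
            exact smul_van (m := 2 * q + 2 + 2) hF _ (inv_ne_zero hs) _ h2)
          simp only [Polynomial.eval_add, Polynomial.eval_mul, Polynomial.eval_C,
            Polynomial.eval_X, mul_zero, add_zero] at h1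
          exact h1
        by_cases hB0 : ∃ j, B j ≠ 0
        · obtain ⟨c, j0, hc⟩ := exists_value B hB0
          obtain ⟨cL, hcL⟩ : ∃ cL : Fin (N + 1) → L, cL = fun i => algebraMap ℂ L (c i) := ⟨_, rfl⟩
          have htop : (fun j => (lp p cL (B j)).coeff 3) =
              fun j => algebraMap ℂ L (aeval c (B j)) := by
            funext j
            rw [lp_top p cL (B j) (hB j), hcL]
            exact MvPolynomial.aeval_algebraMap_apply L c (B j)
          have hne : (fun j => (lp p cL (B j)).coeff 3) ≠ 0 := by
            rw [htop]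
            intro h
            have h1 := congrFun h j0
            exact hc ((map_eq_zero _).1 h1)
          have hb : (fun j => lp p cL (B j)) ≠ 0 := by
            intro h
            apply hne
            funext j
            rw [congrFun h j]
            simp
          obtain ⟨k, b', hk, hb'⟩ := (lead_odd (m := 2 * q + 2 + 2) hm1 hF hNS
            0 (fun j => lp p cL (B j)) (fun j => lp p cL (f j))
            (fun τ s => by
              simp only [lp_eval, Pi.zero_apply, Polynomial.eval_zero, mul_zero, zero_add]
              exact hid2 L _ τ) (by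
              simp only [lp_eval, zero_mul, add_zero]
              exact hp)).2 rfl hb
          by_cases hk0 : k = 0
          · -- cubic forms
            subst hk0
            have h1 : (fun j => (b' j).eval 0) = fun j => aeval p (B j) := by
              funext j
              have h2 := hk j
              rw [pow_zero, one_mul] at h2
              rw [← h2, lp_eval]
              simp
            rw [h1] at hb'
            have hBF : aeval B F = 0 := by
              refine zero_of_values.{u} _ fun L _ _ v => ?_
              rw [MvPolynomial.comp_aeval_apply]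
              exact hFB L v
            exact cubic_any (m := 2 * q + 2 + 2) (by omega) hF B (le_refl 3) hB hBF p hb'.1 hb'.2
          · have h9 := arc_top (m := 2 * q + 2 + 2) hm1 hF hNS (fun j => lp p cL (B j)) b' k 3 hk
              (fun s => by
                simp only [lp_eval]
                exact hFB L _) (fun j => lp_deg p cL (B j) (hB j)) hne (by omega) hb'
            rw [htop] at h9
            exact not_OP_const (m := 2 * q + 2 + 2) hF _ h9
        · push Not at hB0
          obtain ⟨f', hf', hf0, hfp⟩ := drop_var.{u} f hf h0 P0 hP0 (fun L _ _ v t j => by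
            rw [hAB L v t j, hA0 j, hB0 j]
            simp)
          obtain ⟨p', hp'⟩ := hfp L p
          refine ih f' hf' hf0 L p' ?_
          simp only [hp']
          exact hp

end MP2619.Q9
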