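import Pool.Agent.Lib.MP_2619d0_ag.Q9.C6
import Pool.Agent.Lib.MP_2619d0_ag.Q9.C7

/-!
# Theorem Q9: points of products of projective spaces of any dimension
-/

set_option autoImplicit false

namespace MP2619.Q9

universe u

open MvPolynomial Pool.Agent.Lib.MP_2619d0_ag Pool.Agent.Lib.MP_2619d0_ag.T MP2619.T MP2619.Q6

/-- forms restricted to one block are forms -/
theorem restrict_hom {n N s : ℕ} (K : Bk n N s) (g : MvPolynomial (Fin N) ℂ) {e : Fin s → ℕ}
    (hg : K.MH g e) (i0 : Fin s) (c : Fin N → ℂ) :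
    (aeval (fun l => if K.bl l ∈ Finset.univ.erase i0 then C (c l) else X l :
      Fin N → MvPolynomial (Fin N) ℂ) g).IsHomogeneous (e i0) := by
  classical
  rw [aeval_def, eval₂_eq']
  refine IsHomogeneous.sum _ _ _ fun d hdi => ?_
  have h1 : (∏ j : Fin N, (if K.bl j ∈ Finset.univ.erase i0 then C (c j) else X j :
      MvPolynomial (Fin N) ℂ) ^ d j).IsHomogeneous
      (∑ j : Fin N, if K.bl j = i0 then d j else 0) := by
    refine IsHomogeneous.prod _ _ _ fun j _ => ?_
    by_cases h : K.bl j = i0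
    · rw [if_neg (by simp [h]), if_pos h]
      have h2 := (isHomogeneous_X ℂ j).pow (d j)
      rwa [one_mul] at h2
    · rw [if_pos (by simp [h]), if_neg h, ← C_pow]
      exact isHomogeneous_C _ _
  rw [← Finset.sum_filter, hg d (mem_support_iff.1 hdi) i0] at h1
  have h3 := (isHomogeneous_C (Fin N) (algebraMap ℂ ℂ (coeff d g))).mul h1
  rw [zero_add] at h3
  exact h3

theorem q9_final {q n N s : ℕ} (K : Bk n N s)
    {F : MvPolynomial (Fin (2 * q + 2 + 4)) ℂ} (hF : VG F)
    (f : Fin (2 * q + 2 + 4) → MvPolynomial (Fin N) ℂ)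
    {e : Fin s → ℕ} (hd : ∀ i, K.MH (f i) e) (h0 : aeval f F = 0)
    (hc : K.MultC f ∨ ∃ i0, e i0 ≤ 4 ∧ ∀ i, i ≠ i0 → e i ≤ 2)
    {L : Type u} [Field L] [Algebra ℂ L] (p : Fin N → L) (hp : ∀ i, ∃ j, K.bl j = i ∧ p j ≠ 0)
    (hx : HG F (fun j => aeval p (f j))) {r : ℕ} (v : Fin r → L)
    (hv : AlgebraicIndependent (ratioField (fun j => aeval p (f j))) v) :
    ¬ Odd (Module.finrank (IntermediateField.adjoin (ratioField (fun j => aeval p (f j)))
      (Set.range v)) L) := by
  classical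
  refine v_red (m := 2 * q + 2 + 2) K hF f (fun L _ _ p hp hx => ?_) p hp hx v hv
  rcases hc with hm | ⟨i0, hi0, hi⟩
  · exact q8_simple K hF f hd h0 hm p hp hx
  intro hodd
  have hNS : MP2619.N.NoSum.{u} F := MP2619.N.noSum (n := 2 * q + 2 + 4) (by omega) hF
  obtain ⟨c, hcc⟩ := block_all (m := 2 * q + 2 + 2) (by omega) K hF hNS f hd h0 p ⟨hx, hodd⟩
    (Finset.univ.erase i0) (fun i h => hi i (Finset.ne_of_mem_erase h))
  obtain ⟨g, hgd⟩ : ∃ g : Fin (2 * q + 2 + 4) → MvPolynomial (Fin N) ℂ, g = fun j =>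
    aeval (fun l => if K.bl l ∈ Finset.univ.erase i0 then C (c l) else X l :
      Fin N → MvPolynomial (Fin N) ℂ) (f j) := ⟨_, rfl⟩
  have hg : ∀ j, (g j).IsHomogeneous (e i0) := fun j => by
    rw [hgd]
    exact restrict_hom K (f j) (hd j) i0 c
  have hg0 : aeval g F = 0 := by
    rw [hgd, ← MvPolynomial.comp_aeval_apply, h0, map_zero]
  have hgp : (fun j => aeval p (g j)) = fun j =>
      aeval (fun l => if K.bl l ∈ Finset.univ.erase i0 then algebraMap ℂ L (c l) else p l) (f j) := by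
    funext j
    rw [hgd]
    change aeval p (aeval (fun l => if K.bl l ∈ Finset.univ.erase i0 then C (c l) else X l :
      Fin N → MvPolynomial (Fin N) ℂ) (f j)) = _
    rw [MvPolynomial.comp_aeval_apply]
    congr 2
    funext l
    by_cases h : K.bl l ∈ Finset.univ.erase i0
    · rw [if_pos h, if_pos h, aeval_C]
    · rw [if_neg h, if_neg h, aeval_X]
  rw [← hgp] at hcc
  by_cases h3 : e i0 ≤ 3
  · exact cubic_any (m := 2 * q + 2 + 2) (by omega) hF g h3 hg hg0 p hcc.1 hcc.2
  · have h4 : e i0 = 4 := by omega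
    exact ev_four hF N g (fun j => by
      have h5 := hg j
      rwa [h4] at h5) hg0 L p hcc

end MP2619.Q9
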