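import Pool.Agent.Lib.MP_2619d0_ag.Q3.StableN
import Pool.Agent.Lib.MP_2619d0_ag.N.Main

/-!
# Theorem Q9: lines and conics through an odd generic point
-/

set_option autoImplicit false

namespace MP2619.Q9

universe u

open MvPolynomial Pool.Agent.Lib.MP_2619d0_ag Pool.Agent.Lib.MP_2619d0_ag.T MP2619.T MP2619.R
  MP2619.CUB MP2619.Q3

/-- `x` is a generic point of `X` and `[L : ℂ(X)]` is odd. -/
def OP {n : ℕ} (F : MvPolynomial (Fin n) ℂ) {L : Type u} [Field L] [Algebra ℂ L] (x : Fin n → L) :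
    Prop := HG F x ∧ Odd (Module.finrank (ratioField x) L)

theorem OP.smul {n : ℕ} {F : MvPolynomial (Fin n) ℂ} {L : Type u} [Field L] [Algebra ℂ L]
    {x : Fin n → L} (h : OP F x) (c : L) (hc : c ≠ 0) : OP F (c • x) := by
  refine ⟨HG_smul h.1 c hc, ?_⟩
  have h2 : (c • x) = fun j => c * x j := rfl
  rw [h2, ratioField_smul' x hc]
  exact h.2

theorem OP.ne_zero {m : ℕ} {F : MvPolynomial (Fin (m+1+1)) ℂ} (hF : VG F) {L : Type u} [Field L]
    [Algebra ℂ L] {x : Fin (m+1+1) → L} (h : OP F x) : x ≠ 0 := by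
  intro h0
  have h1 := HG_zero hF h.1
  rw [h0] at h1
  exact h1 rfl

/-- The points of a conic over `L` through an odd point are odd (here: the point at infinity); there is no line over `L` through it. -/
theorem conic_par {m : ℕ} (hm : 1 ≤ m) {F : MvPolynomial (Fin (m+1+1)) ℂ} (hF : VG F)
    (hNS : MP2619.N.NoSum.{u} F) {L : Type u} [Field L] [Algebra ℂ L]
    (w q x : Fin (m+1+1) → L) (hx : OP F x)
    (hid : ∀ s : L, Fc (cL L F) (s ^ 2 • w + s • q + x) = 0) :
    (w ≠ 0 → OP F w) ∧ (w = 0 → ∃ c : L, q = c • x) := by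
  classical
  obtain ⟨hx, hodd⟩ := hx
  have hinf : Infinite L := Infinite.of_injective _ (algebraMap ℂ L).injective
  have hx0 : x 0 ≠ 0 := HG_zero hF hx
  obtain ⟨e6, e5, e4, e3, e2, e1, e0⟩ := st_conic_coeffs (cL L F) w q x hid
  constructor
  · intro hw0
    by_contra hw
    by_cases hwx : ∃ c : L, w = c • x
    · obtain ⟨c, hc⟩ := hwx
      have hc0 : c ≠ 0 := by
        rintro rfl
        apply hw0
        rw [hc, zero_smul]
      apply hw
      rw [hc]
      refine ⟨HG_smul hx c hc0, ?_⟩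
      have h1 := ratioField_smul' x hc0
      have h2 : (c • x) = fun j => c * x j := rfl
      rw [h2, h1]
      exact hodd
    push Not at hwx
    have hFw : aeval w F = 0 := by
      rw [aeval_eq_Fc hF.1]
      exact e6
    obtain ⟨h1, -⟩ := third_hom2 (N := m+1) (by omega) hF x hx hodd w hFw hwx
    have hT := (MP2619.N.addition_law (N := m + 1) (by omega) hF hNS x ⟨hx, hodd⟩ w hFw hwx).2.2 hw
    obtain ⟨h3, h4, h5⟩ := third_convert (by omega) hF w x h1 hT
    exact conic_third hm hF w q x hx h3 hid h4 h5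
  · intro hw0
    have h1 : Dc (cL L F) x w = 0 := by
      rw [hw0]
      have h3 := Dc_smul_right (cL L F) 0 x (0 : Fin (m+1+1) → L)
      rwa [zero_smul, zero_mul] at h3
    rw [h1, add_zero] at e2
    exact star_ev (N := m+1) (by omega) hF x hx0 (Gp_ev (N := m+1) hF.1 x hx0 hx)
      (by rw [fd_ev (N := m+1) x hx0]; exact hodd) q e1 e2

/-- The same with the values of `F`. -/
theorem conic_par' {m : ℕ} (hm : 1 ≤ m) {F : MvPolynomial (Fin (m+1+1)) ℂ} (hF : VG F)
    (hNS : MP2619.N.NoSum.{u} F) {L : Type u} [Field L] [Algebra ℂ L]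
    (w q x : Fin (m+1+1) → L) (hx : OP F x)
    (hid : ∀ s : L, aeval (fun j => s ^ 2 * w j + s * q j + x j) F = 0) :
    (w ≠ 0 → OP F w) ∧ (w = 0 → ∃ c : L, q = c • x) := by
  refine conic_par hm hF hNS w q x hx fun s => ?_
  have h1 := hid s
  rw [aeval_eq_Fc hF.1] at h1
  exact h1

/-- A line. -/
theorem line_par {m : ℕ} (hm : 1 ≤ m) {F : MvPolynomial (Fin (m+1+1)) ℂ} (hF : VG F)
    (hNS : MP2619.N.NoSum.{u} F) {L : Type u} [Field L] [Algebra ℂ L]
    (q x : Fin (m+1+1) → L) (hx : OP F x)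
    (hid : ∀ s : L, aeval (fun j => s * q j + x j) F = 0) (hq : q ≠ 0) : OP F q := by
  obtain ⟨c, hc⟩ := (conic_par' hm hF hNS 0 q x hx fun s => by
    have h1 := hid s
    simpa using h1).2 rfl
  have hc0 : c ≠ 0 := by
    rintro rfl
    exact hq (by rw [hc, zero_smul])
  rw [hc]
  exact hx.smul c hc0

/-- Points over `ℂ` are not generic. -/
theorem not_OP_const {m : ℕ} {F : MvPolynomial (Fin (m+1+1)) ℂ} (hF : VG F) {L : Type u} [Field L]
    [Algebra ℂ L] (c : Fin (m+1+1) → ℂ) : ¬ OP F (fun j => algebraMap ℂ L (c j)) := by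
  intro h
  have hh : (C (c 1) * X 0 - C (c 0) * X 1 : MvPolynomial (Fin (m+1+1)) ℂ).IsHomogeneous 1 := by
    refine IsHomogeneous.sub ?_ ?_
    · have := (isHomogeneous_C (Fin (m+1+1)) (c 1)).mul (isHomogeneous_X ℂ (0 : Fin (m+1+1)))
      simpa using this
    · have := (isHomogeneous_C (Fin (m+1+1)) (c 0)).mul (isHomogeneous_X ℂ (1 : Fin (m+1+1)))
      simpa using this
  have h5 := (h.1 1 _ hh).1 (by
    simp only [map_sub, map_mul, aeval_X, aeval_C]
    ring)
  have h6 := MP2619.Q.eq_zero_of_dvd_of_lt hF.1 hh (by norm_num) h5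
  have h7 := HG_zero hF h.1
  have h9 := congrArg (aeval (fun i : Fin (m+1+1) => if i = 1 then (1 : ℂ) else 0)) h6
  have h10 : c 0 = 0 := by simpa using h9
  exact h7 (by rw [h10, map_zero])

end MP2619.Q9
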