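import Pool.Agent.Lib.MP_2619d0_ag.Q9.C1

/-!
Row q9-C2: the top coefficient of an arc of degree at most two
-/

set_option autoImplicit false

namespace MP2619.Q9

universe u

open MvPolynomial Pool.Agent.Lib.MP_2619d0_ag Pool.Agent.Lib.MP_2619d0_ag.T MP2619.T

/-- `d = 2`: `g j = C (coeff 2) X^2 + C (coeff 1) X + C (coeff 0)`, `conic_par'`. `d = 1`: `line_par` (C1). `d = 0`: `coeff 0 = eval 0`. -/
theorem top_odd {m : ℕ} (hm : 1 ≤ m) {F : MvPolynomial (Fin (m+1+1)) ℂ} (hF : VG F)
    (hNS : MP2619.N.NoSum.{u} F) {L : Type u} [Field L] [Algebra ℂ L] (d : ℕ) (hd : d ≤ 2)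
    (g : Fin (m+1+1) → Polynomial L) (hg : ∀ j, (g j).natDegree ≤ d)
    (hX : ∀ s : L, aeval (fun j => (g j).eval s) F = 0) (h0 : OP F (fun j => (g j).eval 0))
    (hne : (fun j => (g j).coeff d) ≠ 0) : OP F (fun j => (g j).coeff d) := by
  have e0 : (fun j => (g j).eval 0) = fun j => (g j).coeff 0 := by
    funext j
    exact ((g j).coeff_zero_eq_eval_zero).symm
  have ev : ∀ (s : L) (j : Fin (m+1+1)), (g j).eval s = ∑ i ∈ Finset.range (d + 1), (g j).coeff i * s ^ i :=
    fun s j => Polynomial.eval_eq_sum_range' (Nat.lt_succ_of_le (hg j)) s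
  rw [e0] at h0
  rcases (by omega : d = 0 ∨ d = 1 ∨ d = 2) with rfl | rfl | rfl
  · exact h0
  · refine line_par hm hF hNS (fun j => (g j).coeff 1) (fun j => (g j).coeff 0) h0 (fun s => ?_) hne
    have h1 := hX s
    have h2 : (fun j => (g j).eval s) = fun j => s * (g j).coeff 1 + (g j).coeff 0 := by
      funext j
      rw [ev s j, Finset.sum_range_succ, Finset.sum_range_one]
      ring
    rwa [h2] at h1
  · refine (conic_par' hm hF hNS (fun j => (g j).coeff 2) (fun j => (g j).coeff 1)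
      (fun j => (g j).coeff 0) h0 (fun s => ?_)).1 hne
    have h1 := hX s
    have h2 : (fun j => (g j).eval s) =
        fun j => s ^ 2 * (g j).coeff 2 + s * (g j).coeff 1 + (g j).coeff 0 := by
      funext j
      rw [ev s j, Finset.sum_range_succ, Finset.sum_range_succ, Finset.sum_range_one]
      ring
    rwa [h2] at h1

end MP2619.Q9
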