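import Pool.Agent.Lib.MP_2619d0_ag.Q9.C1
import Pool.Agent.Lib.MP_2619d0_ag.Q7.T5

/-!
Row q9-C6: elimination of the blocks in which the forms have degree at most two
-/

set_option autoImplicit false

namespace MP2619.Q9

universe u

open MvPolynomial Pool.Agent.Lib.MP_2619d0_ag Pool.Agent.Lib.MP_2619d0_ag.T MP2619.T MP2619.Q6

private theorem C6_aeval {N : ℕ} {S : Type u} [CommRing S] [Algebra ℂ S] (a : Fin N → S)
    (G : MvPolynomial (Fin N) ℂ) :
    aeval a G = ∑ d ∈ G.support, algebraMap ℂ S (G.coeff d) * ∏ i, a i ^ d i := by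
  rw [aeval_def, eval₂_eq']

private theorem C6_prod {ι : Type*} {L : Type u} [Field L] (t : Finset ι) (q : ι → Polynomial L) (a : ι → ℕ)
    (h : ∀ i ∈ t, (q i).natDegree ≤ a i) :
    (∏ i ∈ t, q i).natDegree ≤ ∑ i ∈ t, a i ∧
      (∏ i ∈ t, q i).coeff (∑ i ∈ t, a i) = ∏ i ∈ t, (q i).coeff (a i) := by
  classical
  induction t using Finset.induction_on with
  | empty => simp
  | insert i t hi ih =>
    have h1 := ih (fun j hj => h j (Finset.mem_insert_of_mem hj))
    have h2 := h i (Finset.mem_insert_self i t)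
    rw [Finset.prod_insert hi, Finset.sum_insert hi, Finset.prod_insert hi]
    refine ⟨Polynomial.natDegree_mul_le_of_le h2 h1.1, ?_⟩
    rw [Polynomial.coeff_mul_add_eq_of_natDegree_le h2 h1.1, h1.2]

private theorem C6_pow {L : Type u} [Field L] (x y : L) (d : ℕ) :
    ((Polynomial.C x + Polynomial.C y * Polynomial.X) ^ d).natDegree ≤ d ∧
      ((Polynomial.C x + Polynomial.C y * Polynomial.X) ^ d).coeff d = y ^ d := by
  have h1 : (Polynomial.C x + Polynomial.C y * Polynomial.X).natDegree ≤ 1 := by
    rw [add_comm]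
    exact Polynomial.natDegree_linear_le
  have h2 := Polynomial.natDegree_pow_le_of_le d h1
  have h3 := Polynomial.coeff_pow_of_natDegree_le (m := d) h1
  rw [mul_one] at h2 h3
  refine ⟨h2, ?_⟩
  rw [h3]
  congr 1
  simp

/-- the form along the line `p + s c` in the block `i` -/
private noncomputable def lb {N s : ℕ} {n : ℕ} (K : Bk n N s) (i : Fin s) {L : Type u} [Field L] [Algebra ℂ L]
    (p c : Fin N → L) (G : MvPolynomial (Fin N) ℂ) : Polynomial L :=
  aeval (fun l => if K.bl l = i then Polynomial.C (p l) + Polynomial.C (c l) * Polynomial.X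
    else Polynomial.C (p l)) G

private theorem lb_eval {N s : ℕ} {n : ℕ} (K : Bk n N s) (i : Fin s) {L : Type u} [Field L] [Algebra ℂ L]
    (p c : Fin N → L) (G : MvPolynomial (Fin N) ℂ) (t : L) :
    (lb K i p c G).eval t = aeval (fun l => if K.bl l = i then p l + t * c l else p l) G := by
  unfold lb
  rw [C6_aeval, C6_aeval, Polynomial.eval_finsetSum]
  refine Finset.sum_congr rfl (fun d _ => ?_)
  rw [Polynomial.eval_mul, Polynomial.eval_prod]
  congr 1
  · rw [IsScalarTower.algebraMap_apply ℂ L (Polynomial L), Polynomial.algebraMap_eq, Polynomial.eval_C]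
  · refine Finset.prod_congr rfl (fun l _ => ?_)
    rw [Polynomial.eval_pow]
    congr 1
    split_ifs
    · rw [Polynomial.eval_add, Polynomial.eval_mul, Polynomial.eval_C, Polynomial.eval_C, Polynomial.eval_X,
        mul_comm t]
    · rw [Polynomial.eval_C]

private theorem lb_fac {N s : ℕ} {n : ℕ} (K : Bk n N s) (i : Fin s) {L : Type u} [Field L] [Algebra ℂ L]
    (p c : Fin N → L) (d : Fin N →₀ ℕ) (l : Fin N) :
    ((if K.bl l = i then Polynomial.C (p l) + Polynomial.C (c l) * Polynomial.X
      else Polynomial.C (p l) : Polynomial L) ^ d l).natDegree ≤ (if K.bl l = i then d l else 0) ∧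
    ((if K.bl l = i then Polynomial.C (p l) + Polynomial.C (c l) * Polynomial.X
      else Polynomial.C (p l) : Polynomial L) ^ d l).coeff (if K.bl l = i then d l else 0) =
      (if K.bl l = i then c l else p l) ^ d l := by
  split_ifs with h
  · exact C6_pow (p l) (c l) (d l)
  · rw [← Polynomial.C_pow]
    exact ⟨(Polynomial.natDegree_C _).le, Polynomial.coeff_C_zero⟩

private theorem lb_deg_top {N s : ℕ} {n : ℕ} (K : Bk n N s) (i : Fin s) {L : Type u} [Field L] [Algebra ℂ L]
    (p c : Fin N → L) (G : MvPolynomial (Fin N) ℂ) {e : Fin s → ℕ} (hG : K.MH G e) :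
    (lb K i p c G).natDegree ≤ e i ∧
      (lb K i p c G).coeff (e i) = aeval (fun l => if K.bl l = i then c l else p l) G := by
  have hsum : ∀ d ∈ G.support, ∑ l, (if K.bl l = i then d l else 0) = e i := by
    intro d hd
    have h1 := hG d (mem_support_iff.1 hd) i
    rw [← h1, Finset.sum_filter]
  constructor
  · unfold lb
    rw [C6_aeval]
    refine Polynomial.natDegree_sum_le_of_forall_le _ _ (fun d hd => ?_)
    have h1 := (C6_prod Finset.univ (fun l => (if K.bl l = i then Polynomial.C (p l) + Polynomial.C (c l) * Polynomial.X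
      else Polynomial.C (p l) : Polynomial L) ^ d l) (fun l => if K.bl l = i then d l else 0)
      (fun l _ => (lb_fac K i p c d l).1)).1
    rw [hsum d hd] at h1
    rw [IsScalarTower.algebraMap_apply ℂ L (Polynomial L), Polynomial.algebraMap_eq]
    exact (Polynomial.natDegree_C_mul_le _ _).trans h1
  · unfold lb
    rw [C6_aeval, C6_aeval, Polynomial.finsetSum_coeff]
    refine Finset.sum_congr rfl (fun d hd => ?_)
    have h1 := (C6_prod Finset.univ (fun l => (if K.bl l = i then Polynomial.C (p l) + Polynomial.C (c l) * Polynomial.X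
      else Polynomial.C (p l) : Polynomial L) ^ d l) (fun l => if K.bl l = i then d l else 0)
      (fun l _ => (lb_fac K i p c d l).1)).2
    rw [hsum d hd] at h1
    rw [IsScalarTower.algebraMap_apply ℂ L (Polynomial L), Polynomial.algebraMap_eq, Polynomial.coeff_C_mul, h1]
    congr 1
    exact Finset.prod_congr rfl (fun l _ => (lb_fac K i p c d l).2)

private theorem exists_c {N s n : ℕ} (K : Bk n N s) (i : Fin s) {L : Type u} [Field L] [Algebra ℂ L]
    (p : Fin N → L) (G : MvPolynomial (Fin N) ℂ) (hG : aeval p G ≠ 0) :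
    ∃ c : Fin N → ℂ, aeval (fun l => if K.bl l = i then algebraMap ℂ L (c l) else p l) G ≠ 0 := by
  by_contra hcon
  push Not at hcon
  let H : MvPolynomial (Fin N) L := aeval (fun l => if K.bl l = i then X l else C (p l)) G
  have hev : ∀ x : Fin N → L, eval x H = aeval (fun l => if K.bl l = i then x l else p l) G := by
    intro x
    have h1 := MvPolynomial.comp_aeval_apply (R := ℂ)
      (fun l => (if K.bl l = i then X l else C (p l) : MvPolynomial (Fin N) L))
      ((aeval x : MvPolynomial (Fin N) L →ₐ[L] L).restrictScalars ℂ) G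
    have h2 : eval x H = ((aeval x : MvPolynomial (Fin N) L →ₐ[L] L).restrictScalars ℂ) H := rfl
    rw [h2]
    refine h1.trans ?_
    congr 2
    funext l
    split_ifs <;> simp
  have hinf : (Set.range (algebraMap ℂ L)).Infinite :=
    Set.infinite_range_of_injective (algebraMap ℂ L).injective
  have hH : H = 0 := by
    refine MvPolynomial.funext_set (fun _ => Set.range (algebraMap ℂ L)) (fun _ => hinf) ?_
    intro x hx
    have h1 : ∀ l, ∃ z : ℂ, algebraMap ℂ L z = x l := fun l => hx l (Set.mem_univ l)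
    choose c hc using h1
    rw [hev, map_zero]
    have h2 := hcon c
    simpa only [hc] using h2
  apply hG
  have h1 := hev p
  rw [hH, map_zero] at h1
  rw [h1]
  congr 2
  funext l
  split_ifs <;> rfl

/-- One block `i`, `e i ≤ 2`. -/
theorem block_one {m n N s : ℕ} (hm : 1 ≤ m) (K : Bk n N s)
    {F : MvPolynomial (Fin (m+1+1)) ℂ} (hF : VG F) (hNS : MP2619.N.NoSum.{u} F)
    (f : Fin (m+1+1) → MvPolynomial (Fin N) ℂ) {e : Fin s → ℕ} (hd : ∀ j, K.MH (f j) e)
    (h0 : aeval f F = 0) {L : Type u} [Field L] [Algebra ℂ L] (p : Fin N → L)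
    (hp : OP F (fun j => aeval p (f j))) (i : Fin s) (hi : e i ≤ 2) :
    ∃ c : Fin N → ℂ,
      OP F (fun j => aeval (fun l => if K.bl l = i then algebraMap ℂ L (c l) else p l) (f j)) := by
  have hx0 := hp.ne_zero hF
  obtain ⟨j0, hj0⟩ := Function.ne_iff.1 hx0
  obtain ⟨c, hc⟩ := exists_c K i p (f j0) hj0
  refine ⟨c, ?_⟩
  let P : Fin (m+1+1) → Polynomial L := fun j => lb K i p (fun l => algebraMap ℂ L (c l)) (f j)
  have hP0 : ∀ j, (P j).coeff 0 = aeval p (f j) := by
    intro j
    rw [Polynomial.coeff_zero_eq_eval_zero]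
    show (lb K i p (fun l => algebraMap ℂ L (c l)) (f j)).eval 0 = _
    rw [lb_eval]
    congr 2
    funext l
    rw [zero_mul, add_zero, ite_self]
  have hPt : ∀ j, (P j).coeff (e i) =
      aeval (fun l => if K.bl l = i then algebraMap ℂ L (c l) else p l) (f j) :=
    fun j => (lb_deg_top K i p _ (f j) (hd j)).2
  have hPd : ∀ j, (P j).natDegree ≤ e i := fun j => (lb_deg_top K i p _ (f j) (hd j)).1
  have hFP : ∀ t : L, aeval (fun j => (P j).eval t) F = 0 := by
    intro t
    have h1 : (fun j => (P j).eval t) = fun j =>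
        aeval (fun l => if K.bl l = i then p l + t * algebraMap ℂ L (c l) else p l) (f j) := by
      funext j
      exact lb_eval K i p _ (f j) t
    rw [h1]
    have h2 := MvPolynomial.comp_aeval_apply (R := ℂ) f
      (aeval (fun l => if K.bl l = i then p l + t * algebraMap ℂ L (c l) else p l)) F
    rw [← h2, h0, map_zero]
  have hw0 : (fun j => (P j).coeff (e i)) ≠ 0 := by
    intro h
    have h1 := congrFun h j0
    simp only [hPt] at h1
    exact hc h1
  have hxP : (fun j => aeval p (f j)) = fun j => (P j).coeff 0 := by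
    funext j
    rw [hP0]
  have hgoal : (fun j => aeval (fun l => if K.bl l = i then algebraMap ℂ L (c l) else p l) (f j)) =
      fun j => (P j).coeff (e i) := by
    funext j
    rw [hPt]
  rw [hgoal]
  rw [hxP] at hp
  have hcases : e i = 0 ∨ e i = 1 ∨ e i = 2 := by omega
  rcases hcases with h | h | h
  · rw [h]
    exact hp
  · rw [h] at hw0 hPd ⊢
    refine line_par hm hF hNS (fun j => (P j).coeff 1) _ hp ?_ hw0
    intro t
    rw [← hFP t]
    congr 2
    funext j
    have h2 := Polynomial.eval_eq_sum_range' (Nat.lt_succ_of_le (hPd j)) t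
    rw [h2]
    simp only [Finset.sum_range_succ, Finset.sum_range_zero]
    ring
  · rw [h] at hw0 hPd ⊢
    refine (conic_par' hm hF hNS (fun j => (P j).coeff 2) (fun j => (P j).coeff 1) _ hp ?_).1 hw0
    intro t
    rw [← hFP t]
    congr 2
    funext j
    have h2 := Polynomial.eval_eq_sum_range' (Nat.lt_succ_of_le (hPd j)) t
    rw [h2]
    simp only [Finset.sum_range_succ, Finset.sum_range_zero]
    ring

/-- Induction over the finite set `S` of blocks. -/
theorem block_all {m n N s : ℕ} (hm : 1 ≤ m) (K : Bk n N s)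
    {F : MvPolynomial (Fin (m+1+1)) ℂ} (hF : VG F) (hNS : MP2619.N.NoSum.{u} F)
    (f : Fin (m+1+1) → MvPolynomial (Fin N) ℂ) {e : Fin s → ℕ} (hd : ∀ j, K.MH (f j) e)
    (h0 : aeval f F = 0) {L : Type u} [Field L] [Algebra ℂ L] (p : Fin N → L)
    (hp : OP F (fun j => aeval p (f j))) (S : Finset (Fin s)) (hS : ∀ i ∈ S, e i ≤ 2) :
    ∃ c : Fin N → ℂ,
      OP F (fun j => aeval (fun l => if K.bl l ∈ S then algebraMap ℂ L (c l) else p l) (f j)) := by
  classical
  induction S using Finset.induction_on with
  | empty =>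
    refine ⟨0, ?_⟩
    simpa using hp
  | insert i S hiS ih =>
    obtain ⟨c0, hc0⟩ := ih fun i' hi' => hS i' (Finset.mem_insert_of_mem hi')
    obtain ⟨c1, hc1⟩ := block_one hm K hF hNS f hd h0 _ hc0 i (hS i (Finset.mem_insert_self i S))
    refine ⟨fun l => if K.bl l = i then c1 l else c0 l, ?_⟩
    have h1 : (fun l => if K.bl l ∈ insert i S then
          algebraMap ℂ L (if K.bl l = i then c1 l else c0 l) else p l) =
        fun l => if K.bl l = i then algebraMap ℂ L (c1 l) else
          if K.bl l ∈ S then algebraMap ℂ L (c0 l) else p l := by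
      funext l
      by_cases h2 : K.bl l = i
      · simp [h2]
      · simp [h2]
    rw [h1]
    exact hc1

end MP2619.Q9
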