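import Pool.Agent.Lib.MP_2619d0_ag.Q8.N5V
import Pool.Agent.Lib.MP_2619d0_ag.Q8.VRed2
import Pool.Agent.Lib.MP_2619d0_ag.Q9.Final

/-!
# Theorem Q9, closure version: base points in the closure of the point
-/

set_option autoImplicit false

namespace MP2619.Q9

universe u

open MvPolynomial Pool.Agent.Lib.MP_2619d0_ag Pool.Agent.Lib.MP_2619d0_ag.T MP2619.T MP2619.Q6

/-- the source of any dimension, simple base points in the closure of `p` -/
theorem q8V_simple {q n N s : ℕ} (K : Bk n N s)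
    {F : MvPolynomial (Fin (2 * q + 2 + 4)) ℂ} (hF : VG F)
    (f : Fin (2 * q + 2 + 4) → MvPolynomial (Fin N) ℂ)
    {e : Fin s → ℕ} (hd : ∀ i, K.MH (f i) e) (h0 : aeval f F = 0)
    {L : Type u} [Field L] [Algebra ℂ L] (p : Fin N → L) (hp : ∀ i, ∃ j, K.bl j = i ∧ p j ≠ 0)
    (hm : K.MultCV f p) (hx : HG F (fun j => aeval p (f j))) :
    ¬ Odd (Module.finrank (ratioField (fun j => aeval p (f j))) L) := by
  intro hodd
  obtain ⟨cof2, hcf2, hgen⟩ := rel_gens K p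
  refine q8V_core (mm := 2 * q + 2 + 2) K (RE_holds q) (by omega) (q + 2) (by omega) hF f hd h0 p
    cof2 hcf2 ?_ (srcAllV (D := 2 * q + 2) K hF f hd p hp hx hodd)
  intro k0 Q _ _ _ _ hk0 f0 hf0 p' hrel
  refine mult1V_of_CB K f0 p' p hrel (hgen k0 hk0) ?_
  have h1 : (fun i => MvPolynomial.map (algebraMap k0 ℂ) (f0 i)) = f := funext hf0
  rw [h1]
  exact hm

theorem q9V_final {q n N s : ℕ} (K : Bk n N s)
    {F : MvPolynomial (Fin (2 * q + 2 + 4)) ℂ} (hF : VG F)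
    (f : Fin (2 * q + 2 + 4) → MvPolynomial (Fin N) ℂ)
    {e : Fin s → ℕ} (hd : ∀ i, K.MH (f i) e) (h0 : aeval f F = 0)
    {L : Type u} [Field L] [Algebra ℂ L] (p : Fin N → L) (hp : ∀ i, ∃ j, K.bl j = i ∧ p j ≠ 0)
    (hc : K.MultCV f p ∨ ∃ i0, e i0 ≤ 4 ∧ ∀ i, i ≠ i0 → e i ≤ 2)
    (hx : HG F (fun j => aeval p (f j))) {r : ℕ} (v : Fin r → L)
    (hv : AlgebraicIndependent (ratioField (fun j => aeval p (f j))) v) :
    ¬ Odd (Module.finrank (IntermediateField.adjoin (ratioField (fun j => aeval p (f j)))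
      (Set.range v)) L) := by
  rcases hc with hm | hm
  · refine v_red' (m := 2 * q + 2 + 2) K hF f p (fun L' _ _ p' hp' hx' hrel => ?_) hp hx v hv
    refine q8V_simple K hF f hd h0 p' hp' ?_ hx'
    intro P0 hP0 hcl
    exact hm P0 hP0 fun g d hg hg0 => hcl g d hg (hrel g hg0)
  · exact q9_final K hF f hd h0 (Or.inr hm) p hp hx v hv

end MP2619.Q9
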